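import Pool.Agent.X14.QL

/-!
# A q-congruence for ratios of q-Pochhammer products modulo `Φ_{n^s}(q)^2`
-/

set_option autoImplicit false

namespace Pool.Agent.Results.MP_74870a_nt.RatioCongruence

open Finset Polynomial

noncomputable section

/-- The indeterminate `q`, as an element of `ℚ(q)`. -/
def q : RatFunc ℚ := RatFunc.X

/-- The q-shifted factorial `(a; x)_k = (1 - a)(1 - a x) ⋯ (1 - a x^{k-1})`. -/
def qp (a x : RatFunc ℚ) (k : ℕ) : RatFunc ℚ := ∏ j ∈ range k, (1 - a * x ^ j)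

/-- `F ≡ G (mod P)`: in lowest terms `F - G = A / B` with `P ∣ A` and `B` coprime to `P`. -/
def CongMod (F G : RatFunc ℚ) (P : ℚ[X]) : Prop :=
  P ∣ (F - G).num ∧ IsCoprime (F - G).denom P

/-- The ratio `R_t(q)` of the problem. -/
def R (n t : ℕ) : RatFunc ℚ :=
  (qp q (q ^ 2) ((n ^ t - 1) / 4) * qp (q ^ (2 * n)) (q ^ (2 * n)) ((n ^ (t - 1) - 1) / 4)) /
    (qp (q ^ 2) (q ^ 2) ((n ^ t - 1) / 4) * qp (q ^ n) (q ^ (2 * n)) ((n ^ (t - 1) - 1) / 4))

open Pool.Agent.X14 QL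

/-- the factor of index `a` -/
def G (a : ℕ) : RatFunc ℚ := if a % 2 = 0 then (1 - q ^ a)⁻¹ else 1 - q ^ a

/-- the factor of index `a`, if `n ∤ a` -/
def g (n a : ℕ) : RatFunc ℚ := if n ∣ a then 1 else G a

lemma q_def : q = QL.q := rfl

lemma G_ne {a : ℕ} (ha : 0 < a) : G a ≠ 0 := by
  unfold G
  split_ifs
  · exact inv_ne_zero (one_sub_ne ha)
  · exact one_sub_ne ha

lemma g_ne (n a : ℕ) : g n a ≠ 0 := by
  unfold g
  split_ifs with h
  · exact one_ne_zero
  · exact G_ne (Nat.pos_of_ne_zero (fun h0 => h (h0 ▸ dvd_zero n)))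

/-- multiples of `n` -/
lemma prod_mult {M : Type*} [CommMonoid M] {n : ℕ} (hn : 0 < n) (F : ℕ → M) (m : ℕ) :
    ∏ b ∈ range m, (if n ∣ b + 1 then F ((b + 1) / n) else 1) = ∏ i ∈ range (m / n), F (i + 1) := by
  induction m with
  | zero => simp
  | succ m ih =>
    rw [prod_range_succ, ih, Nat.succ_div]
    split_ifs with h
    · obtain ⟨c, hc⟩ := h
      have : m / n + 1 = (m + 1) / n := by
        rw [Nat.succ_div]; rw [if_pos ⟨c, hc⟩]
      rw [prod_range_succ, this]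
    · rw [add_zero, mul_one]

lemma prod_two {M : Type*} [CommMonoid M] (F : ℕ → M) (m : ℕ) :
    ∏ b ∈ range (2 * m), F b = (∏ j ∈ range m, F (2 * j)) * ∏ j ∈ range m, F (2 * j + 1) := by
  induction m with
  | zero => simp
  | succ m ih =>
    rw [show 2 * (m + 1) = 2 * m + 1 + 1 by ring, prod_range_succ, prod_range_succ, ih,
      prod_range_succ, prod_range_succ]
    rw [mul_mul_mul_comm, mul_assoc, mul_assoc]

/-- the product of all factors -/
lemma prod_G (d m : ℕ) (hd : d % 2 = 1) :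
    ∏ b ∈ range (2 * m), G (d * (b + 1)) =
      qp (q ^ d) (q ^ (2 * d)) m / qp (q ^ (2 * d)) (q ^ (2 * d)) m := by
  rw [prod_two]
  unfold qp
  rw [div_eq_mul_inv, ← prod_inv_distrib]
  congr 1
  · apply prod_congr rfl
    intro j _
    unfold G
    rw [if_neg]
    · rw [← pow_mul, ← pow_add]; congr 2; ring
    · rw [Nat.mul_mod, hd]; omega
  · apply prod_congr rfl
    intro j _
    unfold G
    rw [if_pos]
    · rw [← pow_mul, ← pow_add]; congr 3; ring
    · rw [Nat.mul_mod, hd]; omega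

lemma qp_ne {a m : ℕ} (b : ℕ) (ha : 0 < a) : qp (q ^ a) (q ^ b) m ≠ 0 := by
  unfold qp
  rw [prod_ne_zero_iff]
  intro j _
  rw [← pow_mul, ← pow_add]
  exact one_sub_ne (by omega)

lemma R_eq {n t : ℕ} (hn : n % 4 = 1) (hn1 : 1 < n) (ht : 0 < t) :
    R n t = ∏ b ∈ range ((n ^ t - 1) / 2), g n (b + 1) := by
  obtain ⟨s, rfl⟩ : ∃ s, t = s + 1 := ⟨t - 1, by omega⟩
  have h1 : n ^ s % 4 = 1 := by rw [Nat.pow_mod, hn]; simp
  have h2 : n ^ (s + 1) % 4 = 1 := by rw [Nat.pow_mod, hn]; simp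
  obtain ⟨m', hm'⟩ : ∃ m', n ^ s = 4 * m' + 1 := ⟨n ^ s / 4, by omega⟩
  obtain ⟨m, hm⟩ : ∃ m, n ^ (s + 1) = 4 * m + 1 := ⟨n ^ (s + 1) / 4, by omega⟩
  have e1 : (n ^ (s + 1) - 1) / 4 = m := by omega
  have e2 : (n ^ (s + 1 - 1) - 1) / 4 = m' := by rw [Nat.add_sub_cancel]; omega
  have e3 : (n ^ (s + 1) - 1) / 2 = 2 * m := by omega
  have e4 : 2 * m / n = 2 * m' := by
    obtain ⟨k, hk⟩ : ∃ k, n = 4 * k + 1 := ⟨n / 4, by omega⟩
    have h5 : 2 * m = 2 * k + n * (2 * m') := by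
      have : 4 * m + 1 = (4 * m' + 1) * n := by rw [← hm, pow_succ, hm']
      rw [hk] at this ⊢
      nlinarith
    rw [h5, Nat.add_mul_div_left _ _ (by omega), Nat.div_eq_of_lt (by omega)]
    omega
  have hG : ∏ b ∈ range (2 * m), G (b + 1) =
      (∏ b ∈ range (2 * m), g n (b + 1)) * ∏ b ∈ range (2 * m'), G (n * (b + 1)) := by
    rw [← e4, ← prod_mult (by omega : 0 < n) (fun i => G (n * i)) (2 * m), ← prod_mul_distrib]
    apply prod_congr rfl
    intro b _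
    unfold g
    split_ifs with h
    · rw [Nat.mul_div_cancel' h, one_mul]
    · rw [mul_one]
  have hG1 := prod_G 1 m (by norm_num)
  simp only [one_mul, mul_one, pow_one] at hG1
  have hG2 := prod_G n m' (by omega)
  rw [hG1, hG2] at hG
  unfold R
  rw [e1, e2, e3]
  have n1 : qp (q ^ (2 * n)) (q ^ (2 * n)) m' ≠ 0 := qp_ne _ (by omega)
  have n2 : qp (q ^ n) (q ^ (2 * n)) m' ≠ 0 := qp_ne _ (by omega)
  have n3 : qp (q ^ 2) (q ^ 2) m ≠ 0 := qp_ne _ (by omega)
  rw [div_eq_iff n3] at hG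
  rw [hG]
  field_simp

/-- the pair of factors at distance `b` from `c N` -/
lemma pair_eq {N c b : ℕ} (hb : b ≤ N) (hc : 0 < c) :
    (1 - q ^ (c * N + b)) * (1 - q ^ (c * N - b)) - (q ^ N)⁻¹ * ((1 - q ^ ((c + 1) * N + b)) * (1 - q ^ ((c + 1) * N - b)))
      = -(q ^ N)⁻¹ * ((1 - q ^ N) * (1 - q ^ ((2 * c + 1) * N))) := by
  obtain ⟨c, rfl⟩ : ∃ e, c = e + 1 := ⟨c - 1, by omega⟩
  obtain ⟨d, rfl⟩ := Nat.exists_eq_add_of_le hb
  have hq : q ≠ 0 := q_ne
  have e1 : (c + 1) * (b + d) - b = c * (b + d) + d := by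
    rw [Nat.add_mul, one_mul]; omega
  have e2 : (c + 1 + 1) * (b + d) - b = c * (b + d) + (b + d) + d := by
    rw [Nat.add_mul, Nat.add_mul, one_mul]; omega
  rw [e1, e2]
  have hx : q ^ b ≠ 0 := pow_ne_zero _ hq
  have hy : q ^ d ≠ 0 := pow_ne_zero _ hq
  have f1 : q ^ ((c + 1) * (b + d) + b) = (q ^ b * q ^ d) ^ (c + 1) * q ^ b := by
    rw [pow_add, ← pow_add q b d, ← pow_mul, Nat.mul_comm (c + 1)]
  have f2 : q ^ (c * (b + d) + d) = (q ^ b * q ^ d) ^ c * q ^ d := by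
    rw [pow_add, ← pow_add q b d, ← pow_mul, Nat.mul_comm c]
  have f3 : q ^ ((c + 1 + 1) * (b + d) + b) = (q ^ b * q ^ d) ^ (c + 2) * q ^ b := by
    rw [pow_add, ← pow_add q b d, ← pow_mul, Nat.mul_comm (c + 1 + 1)]
  have f4 : q ^ (c * (b + d) + (b + d) + d) = (q ^ b * q ^ d) ^ (c + 1) * q ^ d := by
    rw [show c * (b + d) + (b + d) + d = (b + d) * (c + 1) + d by ring, pow_add, ← pow_add q b d, ← pow_mul]
  have f5 : q ^ ((2 * (c + 1) + 1) * (b + d)) = (q ^ b * q ^ d) ^ (2 * c + 3) := by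
    rw [← pow_add q b d, ← pow_mul]; congr 1; ring
  rw [f1, f2, f3, f4, f5, pow_add q b d]
  have h6 : (q ^ b * q ^ d) ^ (2 * c + 3) = ((q ^ b * q ^ d) ^ c) ^ 2 * (q ^ b * q ^ d) ^ 3 := by
    rw [← pow_mul, ← pow_add]; congr 1; ring
  rw [h6]
  rw [pow_succ (q ^ b * q ^ d) c, pow_add (q ^ b * q ^ d) c 2]
  generalize (q ^ b * q ^ d) ^ c = z
  generalize q ^ b = x at *
  generalize q ^ d = y at *
  field_simp
  ring


/-- sum of the exponents of `q ^ N` -/
def v (x : RatFunc ℚ) (b : ℕ) : RatFunc ℚ := if b % 2 = 0 then x else x⁻¹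

lemma prod_v {x : RatFunc ℚ} (hx : x ≠ 0) (m : ℕ) : ∏ b ∈ range (2 * m), v x (b + 1) = 1 := by
  induction m with
  | zero => simp
  | succ m ih =>
    rw [show 2 * (m + 1) = 2 * m + 1 + 1 by ring, prod_range_succ, prod_range_succ, ih, one_mul]
    unfold v
    rw [if_neg (by omega), if_pos (by omega), inv_mul_cancel₀ hx]

lemma half_div {n s m' : ℕ} (hn : n % 4 = 1) (hn1 : 1 < n) (hm' : n ^ s = 4 * m' + 1) :
    (n ^ (s + 1) - 1) / 2 / n = 2 * m' := by
  obtain ⟨k, hk⟩ : ∃ k, n = 4 * k + 1 := ⟨n / 4, by omega⟩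
  have h5 : (n ^ (s + 1) - 1) / 2 = 2 * k + n * (2 * m') := by
    have : n ^ (s + 1) = (4 * m' + 1) * n := by rw [pow_succ, hm']
    have h6 : (4 * m' + 1) * n = 2 * (2 * k + n * (2 * m')) + 1 := by
      rw [hk]; ring
    omega
  rw [h5, Nat.add_mul_div_left _ _ (by omega), Nat.div_eq_of_lt (by omega)]
  omega

lemma prod_w {n s : ℕ} (hn : n % 4 = 1) (hn1 : 1 < n) (hs : 0 < s) {x : RatFunc ℚ} (hx : x ≠ 0) :
    ∏ b ∈ range ((n ^ s - 1) / 2), (if n ∣ b + 1 then 1 else v x (b + 1)) = 1 := by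
  obtain ⟨s, rfl⟩ : ∃ e, s = e + 1 := ⟨s - 1, by omega⟩
  have h1 : n ^ s % 4 = 1 := by rw [Nat.pow_mod, hn]; simp
  have h2 : n ^ (s + 1) % 4 = 1 := by rw [Nat.pow_mod, hn]; simp
  obtain ⟨m', hm'⟩ : ∃ m', n ^ s = 4 * m' + 1 := ⟨n ^ s / 4, by omega⟩
  obtain ⟨m, hm⟩ : ∃ m, (n ^ (s + 1) - 1) / 2 = 2 * m := ⟨(n ^ (s + 1) - 1) / 4, by omega⟩
  have e4 := half_div hn hn1 hm'
  have h3 : (∏ b ∈ range ((n ^ (s + 1) - 1) / 2), (if n ∣ b + 1 then 1 else v x (b + 1))) *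
      ∏ b ∈ range ((n ^ (s + 1) - 1) / 2), (if n ∣ b + 1 then v x (n * ((b + 1) / n)) else 1) = 1 := by
    rw [← prod_mul_distrib]
    have h4 := prod_v hx m
    rw [← hm] at h4
    refine Eq.trans (prod_congr rfl ?_) h4
    intro b _
    split_ifs with h
    · rw [Nat.mul_div_cancel' h, one_mul]
    · rw [mul_one]
  rw [prod_mult (by omega : 0 < n) (fun i => v x (n * i)), e4] at h3
  have h5 : ∏ i ∈ range (2 * m'), v x (n * (i + 1)) = 1 := by
    rw [← prod_v hx m']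
    apply prod_congr rfl
    intro i _
    unfold v
    have : n * (i + 1) % 2 = (i + 1) % 2 := by
      rw [Nat.mul_mod, show n % 2 = 1 by omega, one_mul, Nat.mod_mod]
    rw [this]
  rw [h5, mul_one] at h3
  exact h3

/-- the four factors around `c N` and `(c + 1) N` -/
lemma quad {n s c b : ℕ} (hn : n % 4 = 1) (hs : 0 < s) (hc : c % 2 = 1) (hb0 : 0 < b) (hb : b < n ^ s) :
    U (cyclotomic (n ^ s) ℚ) 2 ((g n (c * n ^ s - b) * g n (c * n ^ s + b)) *
      (g n ((c + 1) * n ^ s - b) * g n ((c + 1) * n ^ s + b)) * (if n ∣ b then 1 else v (q ^ (n ^ s)) b)) := by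
  set N := n ^ s with hN
  have hNodd : N % 2 = 1 := by rw [hN, Nat.pow_mod, show n % 2 = 1 by omega]; simp
  have hnN : n ∣ N := dvd_pow_self n (by omega)
  have hc1 : N ≤ c * N := Nat.le_mul_of_pos_left N (by omega)
  have hc2 : N ≤ (c + 1) * N := Nat.le_mul_of_pos_left N (by omega)
  have nd : ∀ e, N ≤ e * N → (n ∣ e * N - b ↔ n ∣ b) := by
    intro e he
    have h1 : n ∣ e * N := hnN.trans (dvd_mul_left _ _)
    constructor
    · intro h
      have := Nat.dvd_sub h1 h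
      rwa [show e * N - (e * N - b) = b by omega] at this
    · intro h
      exact Nat.dvd_sub h1 h
  have nd' : ∀ e, (n ∣ e * N + b ↔ n ∣ b) := by
    intro e
    have h1 : n ∣ e * N := hnN.trans (dvd_mul_left _ _)
    exact Nat.dvd_add_right h1
  unfold g
  simp only [nd c hc1, nd' c, nd (c + 1) hc2, nd' (c + 1)]
  by_cases hb' : n ∣ b
  · simp only [hb', if_true]
    simp only [mul_one]
    exact U.one 2
  · simp only [hb', if_false]
    have hNb : ¬ N ∣ b := fun h => hb' (hnN.trans h)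
    have nN : ∀ e, N ≤ e * N → ¬ N ∣ e * N - b := by
      intro e he h
      have := Nat.dvd_sub (dvd_mul_left N e) h
      rw [show e * N - (e * N - b) = b by omega] at this
      exact hNb this
    have nN' : ∀ e, ¬ N ∣ e * N + b := by
      intro e h
      exact hNb ((Nat.dvd_add_right (dvd_mul_left N e)).1 h)
    have key : U (cyclotomic N ℚ) 2 (((1 - q ^ (c * N + b)) * (1 - q ^ (c * N - b))) *
        ((1 - q ^ ((c + 1) * N + b)) * (1 - q ^ ((c + 1) * N - b)))⁻¹ * q ^ N) := by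
      have hp := pair_eq (N := N) (c := c) (b := b) hb.le (by omega)
      have hx2 : (1 - q ^ ((c + 1) * N + b)) * (1 - q ^ ((c + 1) * N - b)) ≠ 0 :=
        mul_ne_zero (one_sub_ne (by omega)) (one_sub_ne (by omega))
      have hqN : q ^ N ≠ 0 := pow_ne_zero _ q_ne
      have hX2 : ((1 - q ^ ((c + 1) * N + b)) * (1 - q ^ ((c + 1) * N - b)))⁻¹ ∈ Loc (cyclotomic N ℚ) := by
        rw [mul_inv]
        exact (Loc _).mul_mem (inv_one_sub_mem (nN' (c + 1))) (inv_one_sub_mem (nN (c + 1) hc2))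
      have hE : QO (cyclotomic N ℚ) 2 ((1 - q ^ N) * (1 - q ^ ((2 * c + 1) * N))) :=
        (QO_one_sub dvd_rfl).mul (QO_one_sub (dvd_mul_left _ _))
      have h9 := (hE.mul_right hX2).neg
      unfold U
      convert h9 using 1
      generalize (1 - q ^ (c * N + b)) * (1 - q ^ (c * N - b)) = x1 at hp ⊢
      generalize (1 - q ^ ((c + 1) * N + b)) * (1 - q ^ ((c + 1) * N - b)) = x2 at hp hx2 ⊢
      generalize (1 - q ^ N) * (1 - q ^ ((2 * c + 1) * N)) = e at hp ⊢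
      have h10 : x1 * q ^ N = x2 - e := by
        have : x1 = (q ^ N)⁻¹ * x2 - (q ^ N)⁻¹ * e := by linear_combination hp
        rw [this]; field_simp
      have h11 : x1 * x2⁻¹ * q ^ N = (x1 * q ^ N) * x2⁻¹ := by ring
      rw [h11, h10, sub_mul, mul_inv_cancel₀ hx2]; ring
    have pc : (c * N) % 2 = 1 := by rw [Nat.mul_mod, hc, hNodd]
    have pc' : ((c + 1) * N) % 2 = 0 := by rw [Nat.mul_mod, show (c + 1) % 2 = 0 by omega]; simp
    unfold G v
    rcases Nat.mod_two_eq_zero_or_one b with hb2 | hb2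
    · rw [if_neg (by omega), if_neg (by omega), if_pos (by omega), if_pos (by omega), if_pos hb2]
      convert key using 1
      rw [mul_inv]; ring
    · rw [if_pos (by omega), if_pos (by omega), if_neg (by omega), if_neg (by omega), if_neg (by omega)]
      convert key.inv (by norm_num) using 1
      rw [mul_inv, mul_inv, mul_inv, inv_inv]; ring

/-- a block of `N` consecutive factors -/
lemma block {n h c : ℕ} (hN : n ∣ 2 * h + 1) (hc : 0 < c) :
    ∏ i ∈ range (2 * h + 1), g n (h + (2 * h + 1) * (c - 1) + i + 1) =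
      ∏ b ∈ range h, (g n (c * (2 * h + 1) - (b + 1)) * g n (c * (2 * h + 1) + (b + 1))) := by
  obtain ⟨c, rfl⟩ : ∃ e, c = e + 1 := ⟨c - 1, by omega⟩
  rw [Nat.add_sub_cancel, show 2 * h + 1 = h + 1 + h by ring, prod_range_add, prod_range_succ,
    ← prod_range_reflect, prod_mul_distrib]
  have e0 : g n (h + (h + 1 + h) * c + h + 1) = 1 := by
    unfold g
    rw [if_pos]
    have : h + (h + 1 + h) * c + h + 1 = (2 * h + 1) * (c + 1) := by ring
    rw [this]; exact hN.trans (dvd_mul_right _ _)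
  rw [e0, mul_one]
  have e9 : (c + 1) * (h + 1 + h) = (h + 1 + h) * c + (2 * h + 1) := by ring
  congr 1
  · apply prod_congr rfl
    intro b hb
    rw [mem_range] at hb
    congr 1
    rw [e9]
    generalize (h + 1 + h) * c = t
    omega
  · apply prod_congr rfl
    intro b hb
    congr 1
    rw [e9]
    generalize (h + 1 + h) * c = t
    omega

lemma g_mem {n s : ℕ} (hs : 0 < s) (a : ℕ) : g n a ∈ Loc (cyclotomic (n ^ s) ℚ) := by
  unfold g
  split_ifs with h
  · exact (Loc _).one_mem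
  · have : ¬ n ^ s ∣ a := fun h' => h ((dvd_pow_self n (by omega)).trans h')
    unfold G
    split_ifs
    · exact inv_one_sub_mem this
    · exact one_sub_mem _ _

/-- two consecutive blocks -/
lemma two_blocks {n s e : ℕ} (hn : n % 4 = 1) (hn1 : 1 < n) (hs : 0 < s) :
    U (cyclotomic (n ^ s) ℚ) 2 ((∏ i ∈ range (n ^ s), g n ((n ^ s - 1) / 2 + n ^ s * (2 * e) + i + 1)) *
      ∏ i ∈ range (n ^ s), g n ((n ^ s - 1) / 2 + n ^ s * (2 * e + 1) + i + 1)) := by
  have h1 : n ^ s % 4 = 1 := by rw [Nat.pow_mod, hn]; simp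
  obtain ⟨h, hh⟩ : ∃ h, n ^ s = 2 * h + 1 := ⟨n ^ s / 2, by omega⟩
  have hnN : n ∣ 2 * h + 1 := by rw [← hh]; exact dvd_pow_self n (by omega)
  have e1 : (n ^ s - 1) / 2 = h := by omega
  have b1 := block (n := n) (h := h) (c := 2 * e + 1) hnN (by omega)
  have b2 := block (n := n) (h := h) (c := 2 * e + 2) hnN (by omega)
  rw [show 2 * e + 1 - 1 = 2 * e by omega] at b1
  rw [show 2 * e + 2 - 1 = 2 * e + 1 by omega] at b2
  have hw := prod_w hn hn1 hs (x := q ^ (n ^ s)) (pow_ne_zero _ q_ne)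
  rw [e1] at hw ⊢
  have e2 : (∏ i ∈ range (n ^ s), g n (h + n ^ s * (2 * e) + i + 1)) *
      ∏ i ∈ range (n ^ s), g n (h + n ^ s * (2 * e + 1) + i + 1) =
      ∏ b ∈ range h, ((g n ((2 * e + 1) * n ^ s - (b + 1)) * g n ((2 * e + 1) * n ^ s + (b + 1))) *
      (g n ((2 * e + 1 + 1) * n ^ s - (b + 1)) * g n ((2 * e + 1 + 1) * n ^ s + (b + 1))) *
        (if n ∣ b + 1 then 1 else v (q ^ (n ^ s)) (b + 1))) := by
    rw [prod_mul_distrib, prod_mul_distrib, hw, mul_one]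
    rw [hh]
    rw [b1, b2]
  rw [e2]
  apply U.prod
  intro b hb
  rw [mem_range] at hb
  exact quad hn hs (by omega) (by omega) (by omega)

lemma main {n s : ℕ} (hn : n % 4 = 1) (hn1 : 1 < n) (hs : 0 < s) (C : ℕ) :
    U (cyclotomic (n ^ s) ℚ) 2 (∏ i ∈ range (n ^ s * (2 * C)), g n ((n ^ s - 1) / 2 + i + 1)) := by
  induction C with
  | zero => simpa using U.one 2
  | succ C ih =>
    rw [show n ^ s * (2 * (C + 1)) = n ^ s * (2 * C) + (n ^ s + n ^ s) by ring, prod_range_add, prod_range_add]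
    refine ih.mul ?_
    convert two_blocks (e := C) hn hn1 hs using 2
    · apply prod_congr rfl
      intro i _
      congr 1
      generalize n ^ s * (2 * C) = t
      omega
    · apply prod_congr rfl
      intro i _
      congr 1
      rw [Nat.mul_add (n ^ s) (2 * C) 1]
      generalize n ^ s * (2 * C) = t
      omega

/-- **Full positive answer to Q1.** -/
theorem result (n : ℕ) (hn : n % 4 = 1) (hn1 : 1 < n) (r s : ℕ) (hs : 0 < s) (hrs : s < r) :
    CongMod (R n r) (R n s) (cyclotomic (n ^ s) ℚ ^ 2) := by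
  obtain ⟨d, rfl⟩ := Nat.exists_eq_add_of_lt hrs
  have h1 : n ^ s % 4 = 1 := by rw [Nat.pow_mod, hn]; simp
  have h2 : n ^ (d + 1) % 4 = 1 := by rw [Nat.pow_mod, hn]; simp
  obtain ⟨C, hC⟩ : ∃ C, n ^ (d + 1) = 4 * C + 1 := ⟨n ^ (d + 1) / 4, by omega⟩
  have e1 : (n ^ (s + d + 1) - 1) / 2 = (n ^ s - 1) / 2 + n ^ s * (2 * C) := by
    have h3 : n ^ (s + d + 1) = n ^ s + 2 * (n ^ s * (2 * C)) := by
      rw [add_assoc, pow_add, hC]; ring
    rw [h3]
    generalize n ^ s * (2 * C) = t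
    omega
  rw [R_eq hn hn1 (by omega), R_eq hn hn1 hs, e1, prod_range_add]
  set A := ∏ b ∈ range ((n ^ s - 1) / 2), g n (b + 1) with hA
  have hm := main hn hn1 hs C
  have hAm : A ∈ Loc (cyclotomic (n ^ s) ℚ) := (Loc _).prod_mem (fun i _ => g_mem hs _)
  have h5 := QO.mul_left hAm hm
  rw [mul_sub, mul_one] at h5
  exact h5.num_denom

end

end Pool.Agent.Results.MP_74870a_nt.RatioCongruence
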